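import Pool.Agent.H95.INS.Targets3

/-! Module IA of the ins board (helper95). -/

open MeasureTheory ProbabilityTheory
open scoped ENNReal

namespace Pool.Agent.H33.INS.IA

open Pool.Agent.H95.INS Pool.Agent.H99.NS Pool.Agent.H22.LPP

theorem measure_le_card {ι : Type*} (q : ℝ) (F : Finset ι) (E : ι → Set Env) (S : Set Env) (a : ℝ)
    (hS : ∀ ω ∈ S, ∃ i ∈ F, ω ∈ E i) (hE : ∀ i ∈ F, (PE q).real (E i) ≤ a) :
    PE q S ≤ ENNReal.ofReal (F.card * a) := by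
  have h1 : S ⊆ ⋃ i ∈ F, E i := by
    intro ω hω
    obtain ⟨i, hi, h⟩ := hS ω hω
    simp only [Set.mem_iUnion]
    exact ⟨i, hi, h⟩
  calc PE q S ≤ PE q (⋃ i ∈ F, E i) := measure_mono h1
    _ ≤ ∑ i ∈ F, PE q (E i) := measure_biUnion_finset_le _ _
    _ ≤ ∑ i ∈ F, ENNReal.ofReal a := by
      apply Finset.sum_le_sum
      intro i hi
      rw [← ENNReal.ofReal_toReal (measure_ne_top (PE q) (E i))]
      exact ENNReal.ofReal_le_ofReal (hE i hi)
    _ = ENNReal.ofReal (F.card * a) := by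
      rw [Finset.sum_const, nsmul_eq_mul, ENNReal.ofReal_mul (Nat.cast_nonneg _),
        ENNReal.ofReal_natCast]

theorem rpow23 (k : ℕ) : (((64 ^ k : ℕ) : ℝ)) ^ (2 / 3 : ℝ) = 16 ^ k := by
  have h : (((64 ^ k : ℕ) : ℝ)) = ((4 : ℝ) ^ k) ^ (3 : ℝ) := by
    rw [show (3 : ℝ) = ((3 : ℕ) : ℝ) by norm_num, Real.rpow_natCast, ← pow_mul, mul_comm k 3,
      pow_mul]
    push_cast
    norm_num
  rw [h, ← Real.rpow_mul (by positivity), show (3 : ℝ) * (2 / 3) = ((2 : ℕ) : ℝ) by norm_num,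
    Real.rpow_natCast, ← pow_mul, mul_comm k 2, pow_mul]
  norm_num

theorem rpow13 (k : ℕ) : (((64 ^ k : ℕ) : ℝ)) ^ (1 / 3 : ℝ) = 4 ^ k := by
  have h : (((64 ^ k : ℕ) : ℝ)) = ((4 : ℝ) ^ k) ^ (3 : ℝ) := by
    rw [show (3 : ℝ) = ((3 : ℕ) : ℝ) by norm_num, Real.rpow_natCast, ← pow_mul, mul_comm k 3,
      pow_mul]
    push_cast
    norm_num
  rw [h, ← Real.rpow_mul (by positivity), show (3 : ℝ) * (1 / 3) = (1 : ℝ) by norm_num,
    Real.rpow_one]

/-- Choice of the window. -/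
theorem window (W R x : ℤ) (hW : 0 < W) (hx : |x| ≤ R * W) :
    ∃ i ∈ Finset.Icc (-R) R, |x - i * W| ≤ W := by
  rw [abs_le] at hx
  have h1 := Int.mul_ediv_self_le (x := x) (k := W) hW.ne'
  have h2 := Int.lt_mul_ediv_self_add (x := x) (k := W) hW
  refine ⟨x / W, ?_, ?_⟩
  · rw [Finset.mem_Icc]
    constructor
    · rw [Int.le_ediv_iff_mul_le hW]
      linarith [hx.1]
    · have h3 : W * (x / W) ≤ W * R := by linarith [hx.2]
      exact le_of_mul_le_mul_left h3 hW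
  · rw [abs_le]
    constructor <;> linarith

theorem pf_IA : T_IA := by
  intro hBA q hq0 hq1
  obtain ⟨C, c, hC, hc, hB⟩ := hBA q hq0 hq1 (1 / 50) (by norm_num)
  refine ⟨3 * C, c, by positivity, hc, ?_⟩
  intro k R Y hk hR hY
  have h64 : (32 * 64 ^ (k - 1) : ℤ) + 32 * 64 ^ (k - 1) = 64 ^ k := by
    obtain ⟨m, rfl⟩ := Nat.exists_eq_add_of_le hk
    rw [Nat.add_sub_cancel_left, pow_add]; ring
  have hL1 : 1 ≤ 64 ^ k := Nat.one_le_pow _ _ (by norm_num)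
  have hcard : ((Finset.Icc (-R) R).card : ℝ) ≤ 3 * R := by
    rw [Int.card_Icc]
    have h1 : ((R + 1 - -R).toNat : ℤ) = 2 * R + 1 := by
      rw [Int.toNat_of_nonneg (by linarith)]; ring
    have h2 : ((R + 1 - -R).toNat : ℝ) = 2 * R + 1 := by exact_mod_cast h1
    rw [h2]
    have : (1 : ℝ) ≤ R := by exact_mod_cast hR
    linarith
  have key := measure_le_card q (Finset.Icc (-R) R) (fun i =>
    {ω | ∃ u v : Site, ((-(32 * 64 ^ (k - 1)), i * 16 ^ k) : Site).1 ≤ u.1 ∧ u.1 < v.1 ∧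
      v.1 ≤ ((-(32 * 64 ^ (k - 1)), i * 16 ^ k) : Site).1 + ((64 ^ k : ℕ) : ℤ) ∧ Reach u v ∧
      (|dx (-(32 * 64 ^ (k - 1)), i * 16 ^ k) u| ≤ (((64 ^ k : ℕ) : ℝ)) ^ (2 / 3 : ℝ) ∨
        |dx (-(32 * 64 ^ (k - 1)), i * 16 ^ k) v| ≤ (((64 ^ k : ℕ) : ℝ)) ^ (2 / 3 : ℝ)) ∧
      mu q * dt u v - sg q / 2 * dx u v ^ 2 / (dt u v + 1 / 50 * ((64 ^ k : ℕ) : ℝ)) +
        Y * (((64 ^ k : ℕ) : ℝ)) ^ (1 / 3 : ℝ) ≤ T ω u v})
    {ω | ∃ (s t : ℤ) (g : ℤ → ℤ), -(32 * 64 ^ (k - 1)) ≤ s ∧ s ≤ t ∧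
      t ≤ 32 * 64 ^ (k - 1) ∧ IsPath s t g ∧ |g s| ≤ R * 16 ^ k ∧
      sp q (64 ^ k / 50) s t g + Y * 4 ^ k < wt ω s t g}
    (C * Real.exp (-c * Y)) ?_ ?_
  · refine le_trans key (ENNReal.ofReal_le_ofReal ?_)
    have h1 : -c * Y = -(c * Y) := by ring
    rw [h1]
    calc ((Finset.Icc (-R) R).card : ℝ) * (C * Real.exp (-(c * Y)))
        ≤ (3 * R) * (C * Real.exp (-(c * Y))) := by
          apply mul_le_mul_of_nonneg_right hcard
          positivity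
      _ = 3 * C * R * Real.exp (-(c * Y)) := by ring
  · rintro ω ⟨s, t, g, hs, hst, ht, hg, hgs, hw⟩
    have hlt : s < t := by
      rcases hst.lt_or_eq with h | h
      · exact h
      · exfalso
        subst h
        unfold sp wt at hw
        simp at hw
        have : 0 < Y * 4 ^ k := by positivity
        linarith
    obtain ⟨i, hi, hi2⟩ := window (16 ^ k) R (g s) (by positivity) hgs
    refine ⟨i, hi, (s, g s), (t, g t), ?_, ?_, ?_, ?_, ?_, ?_⟩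
    · exact hs
    · exact hlt
    · simp only
      push_cast
      linarith
    · exact path_lip hg le_rfl hst le_rfl
    · left
      rw [rpow23]
      unfold dx
      simp only
      exact_mod_cast hi2
    · rw [rpow13]
      have h1 : wt ω s t g ≤ T ω (s, g s) (t, g t) :=
        le_T ω (u := (s, g s)) (v := (t, g t)) hst ⟨hg, rfl, rfl⟩
      refine le_trans (le_of_lt ?_) h1
      refine lt_of_le_of_lt (le_of_eq ?_) hw
      unfold sp dt dx
      simp only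
      push_cast
      ring
  · intro i _
    exact hB (64 ^ k) hL1 (-(32 * 64 ^ (k - 1)), i * 16 ^ k) Y (by linarith)

end Pool.Agent.H33.INS.IA
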