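import Pool.Agent.H33.INS.IA

/-! Module IC of the ins board (helper95). -/

open MeasureTheory ProbabilityTheory
open scoped ENNReal

namespace Pool.Agent.H33.INS.IC

open Pool.Agent.H95.INS Pool.Agent.H99.NS Pool.Agent.H22.LPP
open Pool.Agent.H33.INS.IA (measure_le_card window)

/-- The two powers of `L`. -/
theorem pows (m : ℕ) (L : ℕ) (hL : L = 8 * 64 ^ m ∨ L = 32 * 64 ^ m) :
    4 * 16 ^ m ≤ (L : ℝ) ^ (2 / 3 : ℝ) ∧ (L : ℝ) ^ (1 / 3 : ℝ) ≤ 4 ^ (m + 1) := by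
  have h1 : (8 : ℝ) * 64 ^ m = (2 * (4 : ℝ) ^ m) ^ (3 : ℝ) := by
    rw [show (3 : ℝ) = ((3 : ℕ) : ℝ) by norm_num, Real.rpow_natCast, mul_pow, ← pow_mul,
      mul_comm m 3, pow_mul]
    norm_num
  have h2 : (64 : ℝ) * 64 ^ m = ((4 : ℝ) ^ (m + 1)) ^ (3 : ℝ) := by
    rw [show (3 : ℝ) = ((3 : ℕ) : ℝ) by norm_num, Real.rpow_natCast, ← pow_mul,
      mul_comm (m + 1) 3, pow_mul, pow_succ']
    norm_num
  have hlo : (8 : ℝ) * 64 ^ m ≤ L := by
    rcases hL with rfl | rfl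
    · push_cast; exact le_rfl
    · push_cast
      have : (0 : ℝ) < 64 ^ m := by positivity
      linarith
  have hhi : (L : ℝ) ≤ 64 * 64 ^ m := by
    have : (0 : ℝ) < 64 ^ m := by positivity
    rcases hL with rfl | rfl
    · push_cast; linarith
    · push_cast; linarith
  constructor
  · have h3 : (4 : ℝ) * 16 ^ m = ((8 : ℝ) * 64 ^ m) ^ (2 / 3 : ℝ) := by
      rw [h1, ← Real.rpow_mul (by positivity), show (3 : ℝ) * (2 / 3) = ((2 : ℕ) : ℝ) by norm_num,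
        Real.rpow_natCast, mul_pow, ← pow_mul, mul_comm m 2, pow_mul]
      norm_num
    rw [h3]
    exact Real.rpow_le_rpow (by positivity) hlo (by norm_num)
  · have h3 : (4 : ℝ) ^ (m + 1) = ((64 : ℝ) * 64 ^ m) ^ (1 / 3 : ℝ) := by
      rw [h2, ← Real.rpow_mul (by positivity), show (3 : ℝ) * (1 / 3) = (1 : ℝ) by norm_num,
        Real.rpow_one]
    rw [h3]
    exact Real.rpow_le_rpow (by positivity) hhi (by norm_num)

/-- The displacement is allowed. -/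
theorem disp (m r : ℕ) (hm : 8 * r + 8 ≤ m) (L : ℕ) (hL : L = 8 * 64 ^ m ∨ L = 32 * 64 ^ m) :
    (8 * r : ℝ) * (4 * 16 ^ m) ≤ XL L := by
  have hlo : (8 : ℝ) * 64 ^ m ≤ L := by
    rcases hL with rfl | rfl
    · push_cast; exact le_rfl
    · push_cast
      have : (0 : ℝ) < 64 ^ m := by positivity
      linarith
  have h1 : (8 : ℝ) * 64 ^ m = (2 : ℝ) ^ ((6 * m + 3 : ℕ) : ℝ) := by
    rw [Real.rpow_natCast, pow_add, pow_mul]
    norm_num
    ring
  unfold XL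
  have h2 : ((8 : ℝ) * 64 ^ m) ^ (17 / 24 : ℝ) ≤ (L : ℝ) ^ (17 / 24 : ℝ) :=
    Real.rpow_le_rpow (by positivity) hlo (by norm_num)
  refine le_trans ?_ h2
  rw [h1, ← Real.rpow_mul (by norm_num)]
  have h3 : ((2 : ℝ)) ^ ((4 * m + 2 * r + 4 : ℕ) : ℝ) ≤
      (2 : ℝ) ^ (((6 * m + 3 : ℕ) : ℝ) * (17 / 24)) := by
    apply Real.rpow_le_rpow_of_exponent_le (by norm_num)
    push_cast
    have : ((8 * r + 8 : ℕ) : ℝ) ≤ m := by exact_mod_cast hm
    push_cast at this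
    nlinarith
  refine le_trans ?_ h3
  rw [Real.rpow_natCast]
  have h4 : (r : ℝ) ≤ 2 ^ r := by
    exact_mod_cast (Nat.lt_two_pow_self (n := r)).le
  have h5 : (2 : ℝ) ^ (4 * m + 2 * r + 4) = 16 * 16 ^ m * (2 ^ r * 2 ^ r) := by
    rw [pow_add, pow_add, pow_mul, show 2 * r = r + r by ring, pow_add]
    norm_num
    ring
  rw [h5]
  have h6 : (1 : ℝ) ≤ 2 ^ r := one_le_pow₀ (by norm_num)
  have h7 : (0 : ℝ) < 16 ^ m := by positivity
  have h8 : (2 : ℝ) * r ≤ 2 ^ r * 2 ^ r := by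
    rcases Nat.eq_zero_or_pos r with h | h
    · subst h; norm_num
    · have h9 : (2 : ℝ) ≤ 2 ^ r := by
        calc (2 : ℝ) = 2 ^ 1 := by norm_num
          _ ≤ 2 ^ r := pow_le_pow_right₀ (by norm_num) h
      nlinarith
  nlinarith

theorem pf_IC : T_IC := by
  intro hBC q hq0 hq1
  obtain ⟨C, c, hC, hc, hB⟩ := hBC q hq0 hq1
  refine ⟨81 * C, c, by positivity, hc, ?_⟩
  intro R hR
  refine ⟨8 * R.toNat + 9, by omega, ?_⟩
  intro k hk s t hst Y hY
  obtain ⟨m, rfl⟩ : ∃ m, k = m + 1 := ⟨k - 1, by omega⟩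
  rw [Nat.add_sub_cancel] at hst
  -- the height as a natural number
  obtain ⟨L, hLt, hL⟩ : ∃ L : ℕ, t = s + (L : ℤ) ∧ (L = 8 * 64 ^ m ∨ L = 32 * 64 ^ m) := by
    rcases hst with h | h
    · refine ⟨8 * 64 ^ m, ?_, Or.inl rfl⟩
      push_cast; linarith
    · refine ⟨32 * 64 ^ m, ?_, Or.inr rfl⟩
      push_cast; linarith
  have hL1 : 1 ≤ L := by
    have : 1 ≤ 64 ^ m := Nat.one_le_pow _ _ (by norm_num)
    rcases hL with h | h <;> omega
  obtain ⟨hp1, hp2⟩ := pows m L hL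
  have hd := disp m R.toNat (by omega) L hL
  have hRR : ((R.toNat : ℕ) : ℝ) = (R : ℝ) := by
    have : ((R.toNat : ℕ) : ℤ) = R := Int.toNat_of_nonneg (by linarith)
    exact_mod_cast this
  rw [hRR] at hd
  have hR1 : (1 : ℝ) ≤ R := by exact_mod_cast hR
  set W : ℤ := 4 * 16 ^ m with hW
  have hW0 : 0 < W := by positivity
  have hWR : (W : ℝ) = 4 * 16 ^ m := by rw [hW]; push_cast; ring
  have hRW : R * 16 ^ (m + 1) = (4 * R) * W := by rw [hW, pow_succ]; ring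
  subst hLt
  have hcard : (((Finset.Icc (-(4 * R)) (4 * R)) ×ˢ (Finset.Icc (-(4 * R)) (4 * R))).card : ℝ) ≤
      81 * R ^ 2 := by
    rw [Finset.card_product, Int.card_Icc]
    have h1 : ((4 * R + 1 - -(4 * R)).toNat : ℤ) = 8 * R + 1 := by
      rw [Int.toNat_of_nonneg (by linarith)]; ring
    have h2 : ((4 * R + 1 - -(4 * R)).toNat : ℝ) = 8 * R + 1 := by exact_mod_cast h1
    push_cast
    rw [h2]
    nlinarith
  have key := measure_le_card q
    ((Finset.Icc (-(4 * R)) (4 * R)) ×ˢ (Finset.Icc (-(4 * R)) (4 * R)))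
    (fun p => {ω | ∃ x y : ℤ, Reach (((s, p.1 * W) : Site).1, x)
        (((s, p.1 * W) : Site).1 + (L : ℤ), y) ∧
      |((x - ((s, p.1 * W) : Site).2 : ℤ) : ℝ)| ≤ (L : ℝ) ^ (2 / 3 : ℝ) ∧
      |((y - (((s, p.1 * W) : Site).2 + (p.2 - p.1) * W) : ℤ) : ℝ)| ≤ (L : ℝ) ^ (2 / 3 : ℝ) ∧
      par q (((s, p.1 * W) : Site).1, x) (((s, p.1 * W) : Site).1 + (L : ℤ), y) +
        Y * (L : ℝ) ^ (1 / 3 : ℝ) ≤
        T ω (((s, p.1 * W) : Site).1, x) (((s, p.1 * W) : Site).1 + (L : ℤ), y)})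
    {ω | ∃ x y : ℤ, |x| ≤ R * 16 ^ (m + 1) ∧ |y| ≤ R * 16 ^ (m + 1) ∧
      Reach (s, x) (s + (L : ℤ), y) ∧
      par q (s, x) (s + (L : ℤ), y) + Y * 4 ^ (m + 1) < T ω (s, x) (s + (L : ℤ), y)}
    (C * Real.exp (-c * Y)) ?_ ?_
  · refine le_trans key (ENNReal.ofReal_le_ofReal ?_)
    have h1 : -c * Y = -(c * Y) := by ring
    rw [h1]
    calc (((Finset.Icc (-(4 * R)) (4 * R)) ×ˢ (Finset.Icc (-(4 * R)) (4 * R))).card : ℝ) *
          (C * Real.exp (-(c * Y)))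
        ≤ (81 * R ^ 2) * (C * Real.exp (-(c * Y))) := by
          apply mul_le_mul_of_nonneg_right hcard
          positivity
      _ = 81 * C * R ^ 2 * Real.exp (-(c * Y)) := by ring
  · rintro ω ⟨x, y, hx, hy, hr, hT⟩
    rw [hRW] at hx hy
    obtain ⟨i, hi, hi2⟩ := window W (4 * R) x hW0 hx
    obtain ⟨j, hj, hj2⟩ := window W (4 * R) y hW0 hy
    refine ⟨(i, j), Finset.mem_product.mpr ⟨hi, hj⟩, x, y, hr, ?_, ?_, ?_⟩
    · refine le_trans ?_ hp1
      rw [← hWR]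
      simp only
      exact_mod_cast hi2
    · refine le_trans ?_ hp1
      rw [← hWR]
      simp only
      have : y - (i * W + (j - i) * W) = y - j * W := by ring
      rw [this]
      exact_mod_cast hj2
    · refine le_trans ?_ hT.le
      have := mul_le_mul_of_nonneg_left hp2 hY.le
      simp only
      linarith
  · rintro ⟨i, j⟩ hij
    rw [Finset.mem_product, Finset.mem_Icc, Finset.mem_Icc] at hij
    apply hB L hL1 (s, i * W) ((j - i) * W) _ Y hY.le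
    refine le_trans ?_ hd
    push_cast
    rw [abs_mul, hWR, abs_of_pos (show (0 : ℝ) < 4 * 16 ^ m by positivity)]
    apply mul_le_mul_of_nonneg_right _ (by positivity)
    have h1 : (j : ℝ) ≤ 4 * R := by exact_mod_cast hij.2.2
    have h2 : -(4 * R : ℝ) ≤ j := by exact_mod_cast hij.2.1
    have h3 : (i : ℝ) ≤ 4 * R := by exact_mod_cast hij.1.2
    have h4 : -(4 * R : ℝ) ≤ i := by exact_mod_cast hij.1.1
    rw [abs_le]
    constructor <;> linarith

end Pool.Agent.H33.INS.IC
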