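import Pool.Agent.H95.INS.Targets2

/-! Module PHL of the ins board (helper95). -/

open MeasureTheory ProbabilityTheory
open scoped ENNReal

namespace Pool.Agent.H33.INS.PHL

open Pool.Agent.H95.INS Pool.Agent.H99.NS Pool.Agent.H22.LPP

theorem det (h_CNF : T_CNF) (q : ℝ) (k : ℕ) (A : ℤ) (K B H Y : ℝ) (X : ℤ)
    (hok : (dat q k A K B H Y X).Ok) (hA : 40 ≤ A) (hH : 0 ≤ H) (ω : Env)
    (hCA : CA (dat q k A K B H Y X) ω)
    (hT : mu q * (8 * 64 ^ (k - 1)) + (2 * H) / 2 * 4 ^ k ≤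
      T ω (-(3 * (8 * 64 ^ (k - 1))), 0) (-(3 * (8 * 64 ^ (k - 1))) + 8 * 64 ^ (k - 1), 0)) :
    HWs (dat q k A K B H Y X) ω (-(3 * (dat q k A K B H Y X).n))
      (-(2 * (dat q k A K B H Y X).n)) 1 := by
  have hn : (dat q k A K B H Y X).n = 8 * 64 ^ (k - 1) := rfl
  have hw : (dat q k A K B H Y X).w = 16 ^ k := rfl
  have hf : (dat q k A K B H Y X).f = 4 ^ k := rfl
  have hq : (dat q k A K B H Y X).q = q := rfl
  have hHH : (dat q k A K B H Y X).H = H := rfl
  have hAA : (dat q k A K B H Y X).A = A := rfl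
  have n1 := hok.n1
  have ne := hok.ne
  have w1 := hok.w1
  set D := dat q k A K B H Y X with hD
  have hn' : (8 * 64 ^ (k - 1) : ℤ) = D.n := hn.symm
  have hnR : (8 * 64 ^ (k - 1) : ℝ) = (D.n : ℝ) := by rw [hn]; push_cast; ring
  rw [hn', hnR] at hT
  have e1 : -(3 * D.n) + D.n = -(2 * D.n) := by ring
  rw [e1] at hT
  have hreach : Reach (-(3 * D.n), 0) (-(2 * D.n), 0) := by
    refine ⟨?_, ?_⟩
    · simp only [sub_self, abs_zero]; linarith
    · simp only [sub_self, add_zero]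
      have : -(2 * D.n) - -(3 * D.n) = D.n := by ring
      rw [this]; exact ne
  obtain ⟨g, hg, hTg, _⟩ := T_attained ω hreach
  obtain ⟨hg1, hg2, hg3⟩ := hg
  simp only at hg1 hg2 hg3 hTg
  have hf0 : 0 < D.f := hok.f0
  have hpar : par D.q (-(3 * D.n), g (-(3 * D.n))) (-(2 * D.n), g (-(2 * D.n))) =
      mu q * (D.n : ℝ) := by
    unfold par
    rw [hg2, hg3, hq]
    simp only
    push_cast
    ring
  have hwt : mu q * (D.n : ℝ) + H * D.f ≤ wt ω (-(3 * D.n)) (-(2 * D.n)) g := by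
    rw [← hTg, hf]
    have : (2 * H) / 2 * 4 ^ k = H * 4 ^ k := by ring
    rw [← this]; exact hT
  have hHf : 0 ≤ H * D.f := mul_nonneg hH hf0.le
  have hstay : Stay (D.A / 2 * D.w) (-(3 * D.n)) (-(2 * D.n)) g := by
    apply h_CNF D ω hok (by rw [hAA]; exact hA) hCA (-(3 * D.n)) (-(2 * D.n)) g
    · linarith
    · linarith
    · linarith
    · linarith
    · exact hg1
    · rw [hg2]; simp; linarith
    · rw [hg3]; simp; linarith
    · rw [hpar, hHH]
      linarith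
  refine ⟨g, ⟨hg1, hstay, ?_, ?_, ?_⟩, ?_⟩
  · rw [hg2]; simp; linarith
  · rw [hg3]; simp; linarith
  · rw [hg2, add_zero]
    obtain ⟨m, hm⟩ := ne
    exact ⟨-(3 * m), by rw [hm]; ring⟩
  · unfold Exc
    rw [hpar, hHH]
    linarith

theorem pf_PHL (h_CNF : T_CNF) (h_PCU : T_PCU) : T_PHL := by
  intro q cs hq0 hq1 hcs hIA hIL ε hε
  obtain ⟨C, c, hC, hc, hPCU⟩ := h_PCU q hq0 hq1 hIA
  obtain ⟨K₀, hK₀, hL⟩ := hIL (ε / 2) (by linarith)
  refine ⟨((cs + ε) * 2 ^ ((3:ℝ)/2) + 1) / c, by positivity, max K₀ (max 1 (4 * C)), ?_⟩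
  intro A K B H Y hH hY hCY hA hAH
  have hH1 : K₀ ≤ H := le_trans (le_max_left _ _) hH
  have hH2 : 1 ≤ H := le_trans (le_trans (le_max_left _ _) (le_max_right _ _)) hH
  have hH3 : 4 * C ≤ H := le_trans (le_trans (le_max_right _ _) (le_max_right _ _)) hH
  obtain ⟨k₀, hk₀, hLk⟩ := hL (2 * H) (by linarith)
  refine ⟨k₀, hk₀, ?_⟩
  intro k X hk hok
  have hk1 : 1 ≤ k := le_trans hk₀ hk
  have hH0 : (0:ℝ) ≤ H := by linarith
  set e : ℝ := Real.exp (-((cs + ε) * (2 * H) ^ ((3:ℝ)/2))) with he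
  have hepos : 0 < e := Real.exp_pos _
  have h1 := hLk k hk (-(3 * (8 * 64 ^ (k - 1))))
  have h2 := hPCU k A X K B H Y hk1 (by linarith) hY
  have h2H : 0 ≤ (2 * H) ^ ((3:ℝ)/2) := by positivity
  have h3 : ENNReal.ofReal e ≤ ENNReal.ofReal (Real.exp (-((cs + ε / 2) * (2 * H) ^ ((3:ℝ)/2)))) := by
    apply ENNReal.ofReal_le_ofReal
    apply Real.exp_le_exp.mpr
    nlinarith
  -- the error term
  have hrp : (2 * H) ^ ((3:ℝ)/2) = 2 ^ ((3:ℝ)/2) * H ^ ((3:ℝ)/2) :=
    Real.mul_rpow (by norm_num) hH0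
  have hcY : (cs + ε) * (2 * H) ^ ((3:ℝ)/2) + H ^ ((3:ℝ)/2) ≤ c * Y := by
    have h4 := mul_le_mul_of_nonneg_left hCY hc.le
    have h5 : c * (((cs + ε) * 2 ^ ((3:ℝ)/2) + 1) / c * H ^ ((3:ℝ)/2)) =
        (cs + ε) * (2 * H) ^ ((3:ℝ)/2) + H ^ ((3:ℝ)/2) := by
      rw [hrp]; field_simp
    rw [h5] at h4
    exact h4
  have hHr : H ≤ H ^ ((3:ℝ)/2) := by
    calc H = H ^ (1:ℝ) := (Real.rpow_one H).symm
      _ ≤ H ^ ((3:ℝ)/2) := Real.rpow_le_rpow_of_exponent_le hH2 (by norm_num)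
  have herr : C * A * Real.exp (-(c * Y)) ≤ e / 2 := by
    have h4 : Real.exp (-(c * Y)) ≤ e * Real.exp (-H) := by
      rw [he, ← Real.exp_add]
      apply Real.exp_le_exp.mpr
      linarith
    have h5 : H * Real.exp (-H) ≤ 2 / H := by
      rw [Real.exp_neg]
      have h6 : H ^ 2 / 2 ≤ Real.exp H := by
        have := Real.quadratic_le_exp_of_nonneg hH0
        linarith
      have h7 : 0 < Real.exp H := Real.exp_pos _
      rw [← div_eq_mul_inv, div_le_div_iff₀ h7 (by linarith)]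
      nlinarith
    have h8 : C * (H * Real.exp (-H)) ≤ 1 / 2 := by
      have h9 : C * (2 / H) ≤ 1 / 2 := by
        rw [mul_div_assoc', div_le_div_iff₀ (by linarith) (by norm_num)]
        linarith
      exact le_trans (mul_le_mul_of_nonneg_left h5 hC.le) h9
    have hA0 : (0:ℝ) ≤ A := by
      have : (0:ℤ) ≤ A := by linarith
      exact_mod_cast this
    calc C * A * Real.exp (-(c * Y)) ≤ C * H * (e * Real.exp (-H)) := by
          apply mul_le_mul
          · exact mul_le_mul_of_nonneg_left hAH hC.le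
          · exact h4
          · positivity
          · positivity
      _ = e * (C * (H * Real.exp (-H))) := by ring
      _ ≤ e * (1 / 2) := mul_le_mul_of_nonneg_left h8 hepos.le
      _ = e / 2 := by ring
  have hsub : {ω | mu q * (8 * 64 ^ (k - 1)) + (2 * H) / 2 * 4 ^ k ≤
      T ω (-(3 * (8 * 64 ^ (k - 1))), 0) (-(3 * (8 * 64 ^ (k - 1))) + 8 * 64 ^ (k - 1), 0)} ⊆
      {ω | HWs (dat q k A K B H Y X) ω (-(3 * (dat q k A K B H Y X).n))
        (-(2 * (dat q k A K B H Y X).n)) 1} ∪ {ω | ¬ CA (dat q k A K B H Y X) ω} := by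
    intro ω hω
    by_cases hCA : CA (dat q k A K B H Y X) ω
    · left
      exact det h_CNF q k A K B H Y X hok hA hH0 ω hCA hω
    · right
      exact hCA
  have h6 : ENNReal.ofReal e ≤ pH (dat q k A K B H Y X) + ENNReal.ofReal (e / 2) := by
    calc ENNReal.ofReal e ≤ _ := h3
      _ ≤ _ := h1
      _ ≤ _ := measure_mono hsub
      _ ≤ _ := measure_union_le _ _
      _ ≤ pH (dat q k A K B H Y X) + ENNReal.ofReal (e / 2) := by
        apply add_le_add
        · exact le_rfl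
        · exact le_trans h2 (ENNReal.ofReal_le_ofReal herr)
  have h7 : ENNReal.ofReal e = ENNReal.ofReal (e / 2) + ENNReal.ofReal (e / 2) := by
    rw [← ENNReal.ofReal_add (by positivity) (by positivity)]
    congr 1
    ring
  rw [h7] at h6 ⊢
  have h8 := (ENNReal.add_le_add_iff_right ENNReal.ofReal_ne_top).mp h6
  rw [two_mul]
  exact add_le_add h8 h8

end Pool.Agent.H33.INS.PHL
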